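import Pool.Agent.R895.Rel

set_option autoImplicit false

/-!
# The relative nef cone conjecture for blow-ups of quotients of powers of an elliptic curve

Let `E = ℂ / ℤ[ω]` where `ω` is a primitive cube root of unity, let `μ_m`, `m ∣ 6`, act on `E^n` by
multiplication, `n = p + r`, and let `X` be the blow-up of `E^n / μ_m` in the image of `0`, with
exceptional divisor `P`. The projection `ℂ^p × ℂ^r → ℂ^p` gives a fibration `X → Z = E^p / μ_m`. The
divisor `K_X + (1 - n / m) P` is numerically trivial, and `(X / Z, (1 - n / m) P)` is a klt log
Calabi-Yau pair if `n ≤ m`. Every automorphism of `X` which comes from a linear automorphism of `ℂ^n`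
maps `P` to itself. The theorem says that for `p ≥ 1` and `2 ≤ r ≤ 4` the cone `A^e(X/Z)` of nef and
effective classes has a rational polyhedral fundamental domain. The nef cone is defined as the closure
of the cone spanned by the classes of semiample line bundles; this is the relative nef cone, by
Kleiman's criterion and because each line bundle on `X` which is ample over `Z` becomes ample when
it is twisted with the pullback of a line bundle on `Z`, which does not change its class.

The proof: a class in `N^1(X/Z)` is a pair `(H, b)` where `H` is a hermitian form on `ℂ^r` and `b` is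
the coefficient of `-P`. Elliptic curves through `0` show that `0 ≤ b ≤ H(v, v)`, in a suitable
normalisation, for all nonzero vectors `v` in the lattice `ℤ[ω]^r`; that a section whose order of
vanishing at `0` is larger than `H(v, v)` vanishes on `ℂ v` is proved with Liouville's theorem and
the Weierstrass sigma function. For the converse we have to write multiples of `H` as sums of
hermitian squares `|l_i|²` of integral linear functions, with at least `b` of them outside a given
proper sublattice, and then take products of sigma functions of the `l_i`. By duality this follows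
from the inequality `min H ≤ tr (M H)` for positive semidefinite `M` which are at least `1` outside
a proper sublattice, and this inequality is proved by reduction theory in rank at most `4`. It
follows that the nef cone is the cone of all `(H, b)` with `0 ≤ b ≤ H(v, v)`, and that the effective
classes in it are spanned by the rational ones. Reduction theory for hermitian forms and Dickson's
lemma for the values of the forms at lattice vectors show that it is covered by the translates of a
rational polyhedral cone.

`Lat`, `kum`, `BlBundle`, `IsClass`, `N1s`, `N1`, `integral`, `semiample`, `effective`, `nefCone`,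
`effCone`, `Normalizes` and `IsPullback` are defined in `Pool.Agent.R895.Defs`; `IsEis` (Eisenstein
integers) in `Pool.Agent.R895.Eis`; `incl` and `proj` in `Pool.Agent.R895.Rel`; `LinGrp`,
`Preserves` and `IsFundDomain` in `Pool.Agent.Y167.Stm`; `cone` in `Pool.Agent.Y167.ConeDef`.
-/

namespace Pool.Agent.Results.MP_20d318_ag.KummerBlowUps

open Pool.Agent.R895
open Pool.Agent.Y167 (cone)
open Pool.Agent.Y167.CC (LinGrp Preserves IsFundDomain)

variable {p r m : ℕ}

/-- The space `N^1(X/Z)` for the blow-up `X` of `E^(p + r) / μ_m` in the image of `0`, over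
`Z = E^p / μ_m`. -/
def NS (p r m : ℕ) : Type := N1 (kum (Fin p ⊕ Fin r) m) (incl p r)

noncomputable instance : AddCommGroup (NS p r m) := Submodule.addCommGroup (N1s _ (incl p r))

noncomputable instance : Module ℝ (NS p r m) := Submodule.module (N1s _ (incl p r))

noncomputable instance : TopologicalSpace (NS p r m) :=
  instTopologicalSpaceSubtype (p := fun h => h ∈ N1s (kum (Fin p ⊕ Fin r) m) (incl p r))

/-- The integral classes in `N^1(X/Z)`. -/
def intNS (p r m : ℕ) : Set (NS p r m) := integral (kum (Fin p ⊕ Fin r) m) (incl p r)

/-- The cone `A^e(X/Z)` of nef and effective classes. -/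
def nefEff (p r m : ℕ) : Set (NS p r m) :=
  nefCone (kum (Fin p ⊕ Fin r) m) (incl p r) ∩ effCone (kum (Fin p ⊕ Fin r) m) (incl p r)

/-- `g` is the pullback by an automorphism of `X` over `Z` which is induced by a linear automorphism
of `ℂ^p × ℂ^r`. -/
def IsLinPull (g : NS p r m ≃ₗ[ℝ] NS p r m) : Prop :=
  ∃ f : (Fin p ⊕ Fin r → ℂ) ≃ₗ[ℂ] (Fin p ⊕ Fin r → ℂ),
    Normalizes (kum (Fin p ⊕ Fin r) m) f ∧ (∀ v, proj p r (f v) = proj p r v) ∧
      IsPullback (Γ := kum (Fin p ⊕ Fin r) m) (j := incl p r) f g

/-- `𝒢` is a group of linear automorphisms of `N^1(X/Z)` which preserves the integral classes and the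
cone of nef and effective classes, and which contains the pullbacks `f^*` by all automorphisms of `X`
over `Z` which are induced by linear automorphisms `f` of `ℂ^p × ℂ^r`. The image of
`Aut(X/Z, (1 - n / m) P)` has these properties. -/
structure IsAutGroup (𝒢 : LinGrp (NS p r m)) : Prop where
  int : Preserves 𝒢 (intNS p r m)
  nef_eff : Preserves 𝒢 (nefEff p r m)
  lin : ∀ g, IsLinPull g → g ∈ 𝒢

/-- Let `X` be the blow-up of `E^(p + r) / μ_m` in the image of `0`, where `E = ℂ / ℤ[ω]` and `m ∣ 6`,
and let `X → Z = E^p / μ_m` be the projection, `p ≥ 1`, `2 ≤ r ≤ 4`. There is a finite set `S` of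
integral classes such that the cone `Π` spanned by `S` consists of nef effective classes and is a
fundamental domain for the action of `𝒢` on the cone `A^e(X/Z)` of nef effective classes. -/
theorem result (p r m : ℕ) (hp : 1 ≤ p) (hr : 2 ≤ r ∧ r ≤ 4) (_hm : m ∣ 6)
    (𝒢 : LinGrp (NS p r m)) (h𝒢 : IsAutGroup 𝒢) :
    ∃ S : Finset (NS p r m), ↑S ⊆ intNS p r m ∧ cone S ⊆ nefEff p r m ∧
      IsFundDomain 𝒢 (nefEff p r m) (cone S) := by
  have hne : Nonempty (Fin p ⊕ Fin r) := ⟨Sum.inl ⟨0, hp⟩⟩
  refine core (incl_isExt p r) Sum.inr_injective hr.1 hr.2 𝒢 h𝒢.int h𝒢.nef_eff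
    fun g u hg => ?_
  obtain ⟨f, hf1, hf2, hf3⟩ := isPb_mem (incl_isExt p r) Sum.inr_injective hg
  refine h𝒢.lin g ⟨f, hf1, fun v => ?_, hf3⟩
  funext i
  exact hf2 v (Sum.inl i) (mem_co.2 fun a => Sum.inr_ne_inl)

end Pool.Agent.Results.MP_20d318_ag.KummerBlowUps
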