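import Pool.Agent.R299.CDE.Main
import Pool.Agent.R299.CDE.Rel

/-!
# The relative nef cone conjecture for the fibrations of finite quotients of products

**Theorem 1 (absolute implies relative).** Let `(Y, Δ)` be a klt Calabi-Yau pair for which the (absolute)
nef cone conjecture holds, and `f : Y → Z` any fibration. Then the relative nef cone conjecture
holds for `(Y / Z, Δ)`, if a subgroup of finite index in the stabilizer of the class `A` (the
pullback of an ample class of `Z`) in the image of `Aut(Y, Δ)` comes from automorphisms over `Z`.

**Theorem 2.** Let `(X i, Δ i)` be finitely many klt Calabi-Yau pairs with the cone conjecture, all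
except one with `h^1(O) = 0`, and `Y = (∏ X i) / G` the quotient of the product by any finite group of
automorphisms of the pair (with fixed points or not; it can permute the factors), with the boundary
`Δ` given by the ramification. Then the same is true for every fibration `f : Y → Z` of `Y`.

The condition on the stabilizer holds if `h^1(O_Z) = 0`: the automorphisms of `(Y, Δ)` which fix `A`
induce automorphisms of `Z` which preserve an ample class and the discriminant of `f`. If their
images were infinite, the identity component of their Zariski closure would be a linear algebraic
group of positive dimension (an abelian variety cannot act on `Z`), and the closures of the orbits of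
one parameter subgroups would be rational curves which meet the discriminant in at most two points. The
variations of Hodge structure of the fibres over these orbits are isotrivial, and the canonical bundle
formula gives a contradiction, since the coefficients of the discriminant divisor are less than one.

The cone conjecture is known for pairs of dimension two (Totaro), abelian varieties
(Prendergast-Smith) and irreducible holomorphic symplectic manifolds (Amerik-Verbitsky, Markman). So
the **relative** cone conjecture holds, for example, for

* all fibrations (in particular all Lagrangian fibrations) of irreducible holomorphic symplectic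
  manifolds;
* all fibrations, onto bases with `h^1(O_Z) = 0`, of all the finite quotients of products of hyperkähler
  manifolds, klt Calabi-Yau pairs of dimension two, and an abelian variety, in any dimension; the
  dimension of the fibres is arbitrary.

## The Lean statement

The theorem is about the cones of the varieties: `Cones` consists of the integral classes, the nef cone
and the effective cone in (the relative) `N^1`, and `IsProjective` are the properties of these cones
which hold for all projective varieties and morphisms. `Preserved` says that a group of linear
maps, such as the image of `Aut(Y, Δ)` in `GL(N^1(Y))`, preserves the three of them. `prodCones` are the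
cones of the product; the group `𝒜` is the image of the group of its automorphisms, it contains
the products of the elements of the `𝒢 i`. `IsFiniteQuotient` are the well known relations between the
cones of `X` and `Y = X / G`. Its last field says that a subgroup of finite index in the centralizer of
`G` in `𝒜` comes from automorphisms which commute with `G`, and so descend to `Y`; this holds since the
kernel of `Aut(X, Δ_X) → GL(N^1(X))` is an extension of a finite group by an abelian variety
`A'` and `H^1(G, A')` is finite. `IsFibration` are the relations between the cones of `Y` and the relative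
cones of `Y / Z`: `p : N^1(Y) → N^1(Y / Z)` is the projection, and a relatively ample class is the image
of an ample class. The last field of `IsFibration` is the condition on the stabilizer of `A` above.
`hplus` is the inclusion `Nef^e(Y / Z) ⊆ Nef^+(Y / Z)`, a known consequence of the cone theorem for klt
log Calabi-Yau pairs.

The conclusion: there is a rational polyhedral fundamental domain for `Aut(Y / Z, Δ)` on `A^e(Y / Z)`, and
`A^e(Y / Z)` is the convex hull of the rational nef classes.

## The proof

Let `Π` be a rational polyhedral fundamental domain for `Y`, `x` an ample class of `Y`. By the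
*Siegel property* (`R299/CDE/Siegel`) finitely many translates `γ Π` contain all the points
`x + m A` of the ray, so one of them contains infinitely many of these points, and then it also contains
`A`. The points of the orbit of `A` in `Π` are finite in number (Dickson's lemma). So up to elements of
the stabilizer of `A` there are only finitely many such `γ`, and modulo `A` the class `x` is a translate
under the stabilizer of a point in one of finitely many rational polyhedral cones.
-/

set_option autoImplicit false

namespace Pool.Agent.Results.MP_20d318_ag.RelativeFromAbsolute

open Pool.Agent.R299.CDE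

/-- **The relative cone conjecture for fibrations of finite quotients of products.** Theorem 1 is the
first part, for all cones `M` (of `Y`) and fibrations; Theorem 2 is the second part, for the quotients
`Y = (∏ X i) / G` of products of varieties for which the cone conjecture holds. -/
theorem result :
    -- Theorem 1
    (∀ {V U : Type} [NormedAddCommGroup V] [NormedSpace ℝ V] [NormedAddCommGroup U]
      [NormedSpace ℝ U] (M : Cones V) (_ : M.IsProjective) (ℬ : LinGrp V) (_ : M.Preserved ℬ)
      (_ : M.ConeConjecture ℬ)
      -- the fibration `Y → Z`
      (M₁ : Cones U) (_ : M₁.IsProjective) (ℬ₁ : LinGrp U) (_ : M₁.Preserved ℬ₁)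
      (_ : M₁.nefEff ⊆ M₁.nefPlus) (A : V) (p : V →ₗ[ℝ] U) (_ : IsFibration M ℬ A p M₁ ℬ₁),
      M₁.ConeConjecture ℬ₁ ∧ M₁.nefEff = M₁.nefPlus) ∧
    -- Theorem 2
    (∀ {ι : Type} [Fintype ι] {W : ι → Type} [∀ i, NormedAddCommGroup (W i)]
      [∀ i, NormedSpace ℝ (W i)]
      -- the factors `X i`
      (N : ∀ i, Cones (W i)) (_ : ∀ i, (N i).IsProjective) (𝒢 : ∀ i, LinGrp (W i))
      (_ : ∀ i, (N i).ConeConjecture (𝒢 i))
      -- the product `X` of the `X i`
      (𝒜 : LinGrp (∀ i, W i)) (_ : (prodCones N).Preserved 𝒜)
      (_ : ∀ γ : ∀ i, W i ≃ₗ[ℝ] W i, (∀ i, γ i ∈ 𝒢 i) → LinearEquiv.piCongrRight γ ∈ 𝒜)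
      -- the quotient `Y = X / G`
      {V : Type} [NormedAddCommGroup V] [NormedSpace ℝ V] (M : Cones V) (_ : M.IsProjective)
      (ℬ : LinGrp V) (_ : M.Preserved ℬ) (G : LinGrp (∀ i, W i)) (q : V →ₗ[ℝ] ∀ i, W i)
      (_ : IsFiniteQuotient (prodCones N) 𝒜 G q M ℬ)
      -- the fibration `Y → Z`
      {U : Type} [NormedAddCommGroup U] [NormedSpace ℝ U] (M₁ : Cones U) (_ : M₁.IsProjective)
      (ℬ₁ : LinGrp U) (_ : M₁.Preserved ℬ₁) (_ : M₁.nefEff ⊆ M₁.nefPlus) (A : V)
      (p : V →ₗ[ℝ] U) (_ : IsFibration M ℬ A p M₁ ℬ₁),
      M₁.ConeConjecture ℬ₁ ∧ M₁.nefEff = M₁.nefPlus) := by
  refine ⟨fun M hM ℬ hℬ hconj M₁ hM₁ ℬ₁ hℬ₁ hplus A p hp =>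
    relative_main hM hℬ hconj hM₁ hℬ₁ hplus hp, ?_⟩
  intro ι _ W _ _ N hN 𝒢 hconj 𝒜 h𝒜 hprod V _ _ M hM ℬ hℬ G q hq U _ _ M₁ hM₁ ℬ₁ hℬ₁ hplus A p hp
  obtain ⟨F, hF, hcov⟩ := prod_cover hN 𝒢 hconj 𝒜 hprod
  have h := quotient_main (prod_projective hN) h𝒜 F hF hcov hM hℬ hq
  exact relative_main hM hℬ h.1 hM₁ hℬ₁ hplus hp

end Pool.Agent.Results.MP_20d318_ag.RelativeFromAbsolute
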